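import Mathlib
import Pool.Agent.Helper760.OracleSim4

set_option autoImplicit false

namespace Pool.Agent.Results.MP_f7c71a_lc.OracleOnPolySets

open Pool.Agent.Helper760.OracleC

/-- On any set of at most `n ^ k` strings of length at most `n` an oracle changes the complexities
in the same way as some finite condition, up to `O(log n)`. The first two clauses say that the
optimal decompressors quantified over exist. -/
theorem result :
    (∃ D : List Bool → List Bool →. List Bool, OptimalCond D) ∧
    (∀ X : ℕ → Bool, ∃ V : List Bool →. List Bool, OptimalIn X V) ∧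
    ∀ (X : ℕ → Bool) (D : List Bool → List Bool →. List Bool), OptimalCond D →
    ∀ V : List Bool →. List Bool, OptimalIn X V →
    ∀ k : ℕ, ∃ c : ℝ, ∀ n : ℕ, 2 ≤ n → ∀ S : Finset (List Bool),
      (∀ s ∈ S, s.length ≤ n) → S.card ≤ n ^ k →
      ∃ x₀ : List Bool, ∀ s ∈ S,
        |(condC D s x₀ : ℝ) - (oracleC V s : ℝ)| ≤ c * Real.log n := by
  refine ⟨exists_optimalCond, exists_optimalIn, ?_⟩
  intro X D hD V hV k
  obtain ⟨x, c, hx, hc⟩ := simulate X D hD V hV
  refine ⟨2 * (c : ℝ) + 6, ?_⟩
  intro n hn S hS _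
  refine ⟨x n, ?_⟩
  intro s hs
  obtain ⟨h1, h2⟩ := hc n s (hS s hs)
  have h1' : (condC D s (x n) : ℝ) ≤ oracleC V s + 2 * Nat.size n + c := by exact_mod_cast h1
  have h2' : (oracleC V s : ℝ) ≤ condC D s (x n) + 2 * Nat.size n + c := by exact_mod_cast h2
  have hc0 : (0 : ℝ) ≤ c := Nat.cast_nonneg c
  have h6 : Real.log 2 ≤ Real.log n :=
    Real.log_le_log (by norm_num) (by exact_mod_cast hn)
  have h7 := Real.log_two_gt_d9
  have h3 := size_le_log n hn
  have h4 : 2 * (Nat.size n : ℝ) + c ≤ (2 * (c : ℝ) + 6) * Real.log n := by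
    have : (c : ℝ) ≤ 2 * c * Real.log n := by nlinarith
    nlinarith
  rw [abs_le]
  constructor <;> linarith

end Pool.Agent.Results.MP_f7c71a_lc.OracleOnPolySets
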